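import Pool.Agent.W172.WL.Stm

set_option autoImplicit false

open MeasureTheory Set Filter Topology
open scoped ENNReal NNReal

namespace Pool.Agent.W658.WL

open Pool.Agent.W172.WL

/-- cells -/
def Ic (n : ℕ) (z : Fin (2 ^ n)) : Set ℝ := Icc ((z.val : ℝ) / 2 ^ n) (((z.val : ℝ) + 1) / 2 ^ n)

theorem ediam_Ic (n : ℕ) (z : Fin (2 ^ n)) : Metric.ediam (Ic n z) ≤ (2⁻¹ : ℝ≥0∞) ^ n := by
  unfold Ic
  rw [Real.ediam_Icc]
  have h : ((z.val : ℝ) + 1) / 2 ^ n - (z.val : ℝ) / 2 ^ n = (2⁻¹ : ℝ) ^ n := by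
    rw [← sub_div, add_sub_cancel_left, one_div, inv_pow]
  rw [h, ENNReal.ofReal_pow (by norm_num), ENNReal.ofReal_inv_of_pos (by norm_num)]
  norm_num

theorem cover (x : ℝ) (hx : x ∈ Icc (0:ℝ) 1) (n : ℕ) : ∃ z : Fin (2 ^ n), x ∈ Ic n z := by
  have h2 : (0:ℝ) < 2 ^ n := by positivity
  rcases eq_or_lt_of_le hx.2 with h1 | h1
  · refine ⟨⟨2 ^ n - 1, Nat.sub_lt (by positivity) one_pos⟩, ?_, ?_⟩
    · show ((2 ^ n - 1 : ℕ) : ℝ) / 2 ^ n ≤ x
      rw [div_le_iff₀ h2, h1, one_mul]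
      have : ((2 ^ n - 1 : ℕ) : ℝ) ≤ ((2 ^ n : ℕ) : ℝ) := by exact_mod_cast Nat.sub_le _ _
      simpa using this
    · show x ≤ (((2 ^ n - 1 : ℕ) : ℝ) + 1) / 2 ^ n
      rw [le_div_iff₀ h2, h1, one_mul, Nat.cast_sub Nat.one_le_two_pow]
      simp
  · have h3 : ⌊x * 2 ^ n⌋₊ < 2 ^ n := by
      rw [Nat.floor_lt (mul_nonneg hx.1 h2.le)]
      push_cast
      nlinarith
    refine ⟨⟨⌊x * 2 ^ n⌋₊, h3⟩, ?_, ?_⟩
    · show ((⌊x * 2 ^ n⌋₊ : ℕ) : ℝ) / 2 ^ n ≤ x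
      rw [div_le_iff₀ h2]
      exact Nat.floor_le (mul_nonneg hx.1 h2.le)
    · show x ≤ (((⌊x * 2 ^ n⌋₊ : ℕ) : ℝ) + 1) / 2 ^ n
      rw [le_div_iff₀ h2]
      exact (Nat.lt_floor_add_one _).le

theorem holder_cont {α C : ℝ} (hα : 0 < α) {f : ℝ → ℝ}
    (hC : ∀ x y : ℝ, |f x - f y| ≤ C * |x - y| ^ α) : Continuous f := by
  rw [continuous_iff_continuousAt]
  intro x
  rw [ContinuousAt, tendsto_iff_dist_tendsto_zero]
  have h1 : Tendsto (fun y : ℝ => C * |y - x| ^ α) (𝓝 x) (𝓝 0) := by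
    have h2 : Continuous (fun y : ℝ => C * |y - x| ^ α) := by
      refine continuous_const.mul ?_
      exact (continuous_abs.comp (continuous_id.sub continuous_const)).rpow_const
        (fun _ => Or.inr hα.le)
    have h3 := h2.tendsto x
    simp only [sub_self, abs_zero] at h3
    rwa [Real.zero_rpow hα.ne', mul_zero] at h3
  refine squeeze_zero (fun _ => dist_nonneg) (fun y => ?_) h1
  rw [Real.dist_eq]
  exact hC y x

theorem ediam_img {α C : ℝ} (hα : 0 < α) (hC0 : 0 ≤ C) {f : ℝ → ℝ}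
    (hC : ∀ x y : ℝ, |f x - f y| ≤ C * |x - y| ^ α) (n : ℕ) (z : Fin (2 ^ n)) :
    volume (f '' Ic n z) ≤ ENNReal.ofReal C * ((2⁻¹ : ℝ≥0∞) ^ n) ^ α := by
  refine (Real.volume_le_diam _).trans (Metric.ediam_le ?_)
  rintro _ ⟨x, hx, rfl⟩ _ ⟨y, hy, rfl⟩
  have h1 : edist x y ≤ (2⁻¹ : ℝ≥0∞) ^ n := (Metric.edist_le_ediam_of_mem hx hy).trans (ediam_Ic n z)
  have h2 : edist (f x) (f y) ≤ ENNReal.ofReal C * (edist x y) ^ α := by
    rw [edist_dist, edist_dist, Real.dist_eq, Real.dist_eq,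
      ENNReal.ofReal_rpow_of_nonneg (abs_nonneg _) hα.le, ← ENNReal.ofReal_mul hC0]
    exact ENNReal.ofReal_le_ofReal (hC x y)
  exact h2.trans (mul_le_mul_right (ENNReal.rpow_le_rpow h1 hα.le) _)

theorem dim_le {α s : ℝ} (hα : 0 < α) (hα1 : α < 1) (hs : 1 - α < s) {f : ℝ → ℝ} (hf : Hol α f) :
    ∀ᵐ y : ℝ, dimH {x : ℝ | x ∈ Icc (0:ℝ) 1 ∧ f x = y} ≤ ENNReal.ofReal s := by
  obtain ⟨C', hC'⟩ := hf
  obtain ⟨C, hC0, hC⟩ : ∃ C : ℝ, 0 ≤ C ∧ ∀ x y : ℝ, |f x - f y| ≤ C * |x - y| ^ α :=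
    ⟨|C'|, abs_nonneg _, fun x y => (hC' x y).trans
      (mul_le_mul_of_nonneg_right (le_abs_self _) (Real.rpow_nonneg (abs_nonneg _) _))⟩
  have hs0 : 0 < s := by linarith
  have hfc := holder_cont hα hC
  have hcomp : ∀ n (z : Fin (2 ^ n)), IsCompact (f '' Ic n z) := fun n z =>
    isCompact_Icc.image hfc
  have hmeas : ∀ n (z : Fin (2 ^ n)), MeasurableSet (f '' Ic n z) := fun n z =>
    (hcomp n z).measurableSet
  set h : ℕ → ℝ → ℝ≥0∞ := fun n y =>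
    ∑ z : Fin (2 ^ n), (f '' Ic n z).indicator (fun _ => ((2⁻¹ : ℝ≥0∞) ^ n) ^ s) y with hh
  have hhm : ∀ n, Measurable (h n) := fun n =>
    Finset.measurable_fun_sum _ fun z _ => measurable_const.indicator (hmeas n z)
  set r : ℝ≥0∞ := 2 * (2⁻¹ : ℝ≥0∞) ^ (s + α) with hr
  have hr1 : r < 1 := by
    have e1 : (2 : ℝ≥0∞) = (2⁻¹ : ℝ≥0∞) ^ (-1 : ℝ) := by
      rw [ENNReal.rpow_neg_one, inv_inv]
    have e2 : r = (2⁻¹ : ℝ≥0∞) ^ (-1 + (s + α)) := by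
      rw [ENNReal.rpow_add _ _ (by norm_num) (by norm_num), ← e1]
    rw [e2]
    exact ENNReal.rpow_lt_one (by norm_num) (by linarith)
  have hint : ∀ n, ∫⁻ y, h n y ≤ ENNReal.ofReal C * r ^ n := by
    intro n
    rw [hh]
    simp only
    rw [lintegral_finset_sum _ fun z _ => measurable_const.indicator (hmeas n z)]
    have e1 : ∀ z ∈ (Finset.univ : Finset (Fin (2 ^ n))),
        ∫⁻ y, (f '' Ic n z).indicator (fun _ => ((2⁻¹ : ℝ≥0∞) ^ n) ^ s) y ≤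
          ((2⁻¹ : ℝ≥0∞) ^ n) ^ s * (ENNReal.ofReal C * ((2⁻¹ : ℝ≥0∞) ^ n) ^ α) := by
      intro z _
      rw [lintegral_indicator_const (hmeas n z)]
      exact mul_le_mul_right (ediam_img hα hC0 hC n z) _
    refine (Finset.sum_le_sum e1).trans ?_
    rw [Finset.sum_const, Finset.card_univ, Fintype.card_fin, nsmul_eq_mul]
    have e2 : r ^ n = ((2 ^ n : ℕ) : ℝ≥0∞) * (((2⁻¹ : ℝ≥0∞) ^ n) ^ s * ((2⁻¹ : ℝ≥0∞) ^ n) ^ α) := by
      rw [← ENNReal.rpow_add _ _ (pow_ne_zero _ (by norm_num)) (by simp), hr, mul_pow]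
      push_cast
      congr 1
      rw [← ENNReal.rpow_natCast, ← ENNReal.rpow_natCast, ← ENNReal.rpow_mul, ← ENNReal.rpow_mul,
        mul_comm]
    rw [e2]
    refine le_of_eq ?_
    ring
  have htot : ∫⁻ y, ∑' n, h n y ≠ ⊤ := by
    rw [lintegral_tsum fun n => (hhm n).aemeasurable]
    refine ne_top_of_le_ne_top ?_ (ENNReal.tsum_le_tsum hint)
    rw [ENNReal.tsum_mul_left, ENNReal.tsum_geometric]
    refine ENNReal.mul_ne_top ENNReal.ofReal_ne_top ?_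
    rw [Ne, ENNReal.inv_eq_top]
    exact (tsub_pos_of_lt hr1).ne'
  have hae := ae_lt_top (Measurable.tsum hhm) htot
  filter_upwards [hae] with y hy
  have hy0 : Tendsto (fun n => h n y) atTop (𝓝 0) :=
    ENNReal.tendsto_atTop_zero_of_tsum_ne_top hy.ne
  classical
  let t : ∀ n : ℕ, Fin (2 ^ n) → Set ℝ := fun n z => if y ∈ f '' Ic n z then Ic n z else ∅
  have hle : Measure.hausdorffMeasure s {x : ℝ | x ∈ Icc (0:ℝ) 1 ∧ f x = y} ≤
      liminf (fun n => ∑ i, Metric.ediam (t n i) ^ s) atTop := by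
    refine Measure.hausdorffMeasure_le_liminf_sum s _ (fun n => (2⁻¹ : ℝ≥0∞) ^ n)
      (ENNReal.tendsto_pow_atTop_nhds_zero_of_lt_one (by norm_num)) t ?_ ?_
    · refine Eventually.of_forall fun n i => ?_
      simp only [t]
      split_ifs
      · exact ediam_Ic n i
      · simp
    · refine Eventually.of_forall fun n x hx => ?_
      obtain ⟨z, hz⟩ := cover x hx.1 n
      refine mem_iUnion.2 ⟨z, ?_⟩
      have : y ∈ f '' Ic n z := ⟨x, hz, hx.2⟩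
      simp only [t]
      rw [if_pos this]
      exact hz
  have hle2 : ∀ n, ∑ i, Metric.ediam (t n i) ^ s ≤ h n y := by
    intro n
    refine Finset.sum_le_sum fun z _ => ?_
    simp only [t]
    by_cases hz : y ∈ f '' Ic n z
    · rw [if_pos hz, indicator_of_mem hz]
      exact ENNReal.rpow_le_rpow (ediam_Ic n z) hs0.le
    · rw [if_neg hz, indicator_of_notMem hz]
      simp [hs0]
  have hzero : Measure.hausdorffMeasure s {x : ℝ | x ∈ Icc (0:ℝ) 1 ∧ f x = y} = 0 := by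
    refine le_antisymm (hle.trans ?_) (zero_le)
    have h1 : liminf (fun n => ∑ i, Metric.ediam (t n i) ^ s) atTop ≤ liminf (fun n => h n y) atTop :=
      liminf_le_liminf (Eventually.of_forall hle2)
    exact h1.trans hy0.liminf_eq.le
  have h5 : dimH {x : ℝ | x ∈ Icc (0:ℝ) 1 ∧ f x = y} ≤ ((Real.toNNReal s : ℝ≥0) : ℝ≥0∞) := by
    apply dimH_le_of_hausdorffMeasure_ne_top
    rw [Real.coe_toNNReal s hs0.le, hzero]
    simp
  exact h5

theorem up : S_UP := by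
  intro α h0 h1 f hf
  have h2 : ∀ᵐ y : ℝ, ∀ k : ℕ, dimH {x : ℝ | x ∈ Icc (0:ℝ) 1 ∧ f x = y} ≤
      ENNReal.ofReal (1 - α + 1 / ((k : ℝ) + 1)) := by
    rw [ae_all_iff]
    intro k
    refine dim_le h0 h1 ?_ hf
    have : (0:ℝ) < 1 / ((k : ℝ) + 1) := by positivity
    linarith
  filter_upwards [h2] with y hy
  have h3 : Tendsto (fun k : ℕ => ENNReal.ofReal (1 - α + 1 / ((k : ℝ) + 1))) atTop
      (𝓝 (ENNReal.ofReal (1 - α + 0))) := by
    refine (ENNReal.continuous_ofReal.tendsto _).comp ?_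
    exact tendsto_const_nhds.add tendsto_one_div_add_atTop_nhds_zero_nat
  rw [add_zero] at h3
  exact ge_of_tendsto' h3 hy

end Pool.Agent.W658.WL
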